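import Pool.Agent.W548.MQ.Stm

open Polynomial

namespace Pool.Agent.W692.MQ

open _root_.W548.MQ

lemma P_monic : (_root_.W548.MQ.P).Monic := by
  unfold _root_.W548.MQ.P
  exact Polynomial.monic_X_pow_sub_C _ (by norm_num)

theorem t_NOE (hdom : IsDomain A) : _root_.W548.MQ.S_NOE := by
  have : Module.Finite ℚ[X] A := P_monic.finite_adjoinRoot
  have : Algebra.IsIntegral ℚ[X] A := Algebra.IsIntegral.of_finite _ _
  exact ⟨IsNoetherianRing.of_finite ℚ[X] A, Ring.DimensionLEOne.of_isIntegral ℚ[X] A⟩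

end Pool.Agent.W692.MQ
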