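import Pool.Agent.W548.MQ.Stm

open Polynomial

namespace Pool.Agent.W692.MQ

open _root_.W548.MQ

lemma P_monic' : (_root_.W548.MQ.P).Monic := by
  unfold _root_.W548.MQ.P
  exact Polynomial.monic_X_pow_sub_C _ (by norm_num)

lemma P_natDegree : (_root_.W548.MQ.P).natDegree = 2 := by
  unfold _root_.W548.MQ.P
  exact Polynomial.natDegree_X_pow_sub_C

/-- `s = 1 - X²` in `ℚ[X]`. -/
noncomputable def s : ℚ[X] := 1 - X ^ 2

lemma s_sqf : Squarefree s := by
  apply Polynomial.Separable.squarefree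
  refine ⟨1, -(C (1/2 : ℚ)) * X, ?_⟩
  have h2 : (C (1/2 : ℚ)) * 2 = (1 : ℚ[X]) := by
    rw [← C_ofNat, ← C_mul]; norm_num
  have hd : derivative s = -(2 * X) := by
    simp [s]
    norm_num
  rw [hd, s]
  linear_combination X ^ 2 * h2

/-- if `n² ∣ q² s` then `n ∣ q`. -/
lemma dvd_of_sq (n q : ℚ[X]) (hn : n ≠ 0) (h : n ^ 2 ∣ q ^ 2 * s) : n ∣ q := by
  obtain ⟨n', q', hn', hq', hu⟩ := extract_gcd n q
  have hcop : IsCoprime n' q' := (gcd_isUnit_iff _ _).1 hu
  generalize gcd n q = g at hn' hq'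
  subst hn' hq'
  have hg : g ≠ 0 := left_ne_zero_of_mul hn
  have h1 : n' ^ 2 ∣ q' ^ 2 * s := by
    have : g ^ 2 * n' ^ 2 ∣ g ^ 2 * (q' ^ 2 * s) := by
      convert h using 1 <;> ring
    exact (mul_dvd_mul_iff_left (pow_ne_zero 2 hg)).1 this
  have h2 : n' ^ 2 ∣ s := (hcop.pow (m := 2) (n := 2)).dvd_of_dvd_mul_left h1
  have h3 : IsUnit n' := s_sqf n' (by rwa [← sq])
  exact mul_dvd_mul_left g h3.dvd

lemma y_sq : (y : A) ^ 2 = algebraMap ℚ[X] A s := by
  have h := circle
  have hx : algebraMap ℚ[X] A s = 1 - x ^ 2 := by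
    simp only [s, map_sub, map_one, map_pow]
    rfl
  rw [hx]
  linear_combination h

/-- The conjugation `y ↦ -y`. -/
noncomputable def σ : A →ₐ[ℚ[X]] A :=
  AdjoinRoot.liftAlgHom P (Algebra.ofId ℚ[X] A) (-y) (by
    have h := y_sq
    simp only [P, eval₂_sub, eval₂_X_pow, eval₂_C]
    rw [neg_sq, h]
    simp [s])

lemma σ_y : σ y = -y := by
  unfold σ y
  exact AdjoinRoot.liftAlgHom_root _ _ _ _

lemma exists_repr (a : A) : ∃ p q : ℚ[X], a = algebraMap ℚ[X] A p + algebraMap ℚ[X] A q * y := by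
  obtain ⟨f, rfl⟩ := AdjoinRoot.mk_surjective a
  have h1 : AdjoinRoot.mk P f = AdjoinRoot.mk P (f %ₘ P) := by
    conv_lhs => rw [← modByMonic_add_div f P]
    simp
  have h2 : (f %ₘ P).natDegree ≤ 1 := by
    have h := natDegree_modByMonic_lt f P_monic' (by
      intro h
      have := P_natDegree
      rw [h] at this
      simp at this)
    rw [P_natDegree] at h
    omega
  have h3 := eq_X_add_C_of_natDegree_le_one h2
  refine ⟨(f %ₘ P).coeff 0, (f %ₘ P).coeff 1, ?_⟩
  rw [h1]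
  conv_lhs => rw [h3]
  simp only [map_add, map_mul, AdjoinRoot.mk_X, AdjoinRoot.mk_C]
  rw [add_comm]
  rfl

lemma inj_A : Function.Injective (algebraMap ℚ[X] A) := by
  apply AdjoinRoot.of.injective_of_degree_ne_zero
  intro h
  have h1 := P_natDegree
  rw [natDegree_eq_of_degree_eq_some (n := 0) (by simpa using h)] at h1
  omega

lemma σ_repr (p q : ℚ[X]) : σ (algebraMap ℚ[X] A p + algebraMap ℚ[X] A q * y) =
    algebraMap ℚ[X] A p - algebraMap ℚ[X] A q * y := by
  rw [map_add, map_mul, AlgHom.commutes, AlgHom.commutes, σ_y]; ring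

lemma σσ (a : A) : σ (σ a) = a := by
  obtain ⟨p, q, rfl⟩ := exists_repr a
  rw [σ_repr, map_sub, map_mul, AlgHom.commutes, AlgHom.commutes, σ_y]; ring

lemma σ_inj : Function.Injective σ := fun a b h => by
  rw [← σσ a, h, σσ]

lemma norm_repr (a : A) : ∃ n : ℚ[X], a * σ a = algebraMap ℚ[X] A n := by
  obtain ⟨p, q, rfl⟩ := exists_repr a
  refine ⟨p ^ 2 - q ^ 2 * s, ?_⟩
  rw [σ_repr, map_sub, map_mul, map_pow, map_pow]
  have h := y_sq
  linear_combination (-(algebraMap ℚ[X] A q) ^ 2) * h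

section
variable (hdom : IsDomain A)
include hdom

/-- a fraction `u/v` of polynomials, integral over `ℚ[X]`, is a polynomial. -/
lemma dvd_of_int (u v : ℚ[X]) (hv : v ≠ 0)
    (h : IsIntegral ℚ[X] ((algebraMap ℚ[X] (FractionRing A) u) / (algebraMap ℚ[X] (FractionRing A) v))) :
    v ∣ u := by
  have hinj : Function.Injective (algebraMap ℚ[X] (FractionRing A)) := by
    rw [IsScalarTower.algebraMap_eq ℚ[X] A (FractionRing A)]
    exact (IsFractionRing.injective A (FractionRing A)).comp inj_A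
  have : FaithfulSMul ℚ[X] (FractionRing A) := (faithfulSMul_iff_algebraMap_injective _ _).2 hinj
  let : Algebra (FractionRing ℚ[X]) (FractionRing A) := FractionRing.liftAlgebra _ _
  have : IsScalarTower ℚ[X] (FractionRing ℚ[X]) (FractionRing A) :=
    FractionRing.isScalarTower_liftAlgebra _ _
  have h1 : (algebraMap ℚ[X] (FractionRing A) u) / (algebraMap ℚ[X] (FractionRing A) v) =
      algebraMap (FractionRing ℚ[X]) (FractionRing A)
        ((algebraMap ℚ[X] (FractionRing ℚ[X]) u) / (algebraMap ℚ[X] (FractionRing ℚ[X]) v)) := by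
    rw [map_div₀, ← IsScalarTower.algebraMap_apply, ← IsScalarTower.algebraMap_apply]
  rw [h1, isIntegral_algebraMap_iff (algebraMap (FractionRing ℚ[X]) (FractionRing A)).injective] at h
  obtain ⟨w, hw⟩ := (isIntegrallyClosed_iff (FractionRing ℚ[X])).1 inferInstance h
  have hv' : algebraMap ℚ[X] (FractionRing ℚ[X]) v ≠ 0 := by
    rwa [Ne, map_eq_zero_iff _ (IsFractionRing.injective ℚ[X] (FractionRing ℚ[X]))]
  rw [eq_div_iff hv', ← map_mul] at hw
  have := IsFractionRing.injective ℚ[X] (FractionRing ℚ[X]) hw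
  exact ⟨w, by rw [← this]; ring⟩

theorem t_IC : _root_.W548.MQ.S_IC := by
  unfold S_IC
  rw [isIntegrallyClosed_iff (FractionRing A)]
  intro z hz
  have : Module.Finite ℚ[X] A := P_monic'.finite_adjoinRoot
  have : Algebra.IsIntegral ℚ[X] A := Algebra.IsIntegral.of_finite _ _
  have hz' : IsIntegral ℚ[X] z := isIntegral_trans z hz
  have hinjF := IsFractionRing.injective A (FractionRing A)
  -- extension of σ
  let τ0 : FractionRing A →+* FractionRing A := IsFractionRing.map (A := A) (B := A) (j := (σ : A →+* A)) σ_inj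
  have hτ0 : ∀ a : A, τ0 (algebraMap A (FractionRing A) a) = algebraMap A (FractionRing A) (σ a) :=
    fun a => by
      simp only [τ0, IsFractionRing.map, IsLocalization.map_eq]
      rfl
  let τ : FractionRing A →ₐ[ℚ[X]] FractionRing A :=
    { τ0 with
      commutes' := fun p => by
        change τ0 _ = _
        rw [IsScalarTower.algebraMap_apply ℚ[X] A (FractionRing A), hτ0, AlgHom.commutes] }
  have hτ : ∀ a : A, τ (algebraMap A (FractionRing A) a) = algebraMap A (FractionRing A) (σ a) := hτ0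
  obtain ⟨a, b, hb, rfl⟩ := IsFractionRing.div_surjective (A := A) z
  have hb0 : b ≠ 0 := nonZeroDivisors.ne_zero hb
  obtain ⟨n, hn⟩ := norm_repr b
  have hσb : σ b ≠ 0 := by
    intro h
    exact hb0 (σ_inj (by rw [h, map_zero]))
  have hn0 : n ≠ 0 := by
    rintro rfl
    rw [map_zero] at hn
    exact (mul_ne_zero hb0 hσb) hn
  obtain ⟨p, q, hpq⟩ := exists_repr (a * σ b)
  set F := FractionRing A with hF
  have hbF : algebraMap A F b ≠ 0 := by
    rwa [Ne, map_eq_zero_iff _ hinjF]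
  have hσbF : algebraMap A F (σ b) ≠ 0 := by
    rwa [Ne, map_eq_zero_iff _ hinjF]
  have hnA : algebraMap ℚ[X] A n ≠ 0 := by
    rwa [Ne, map_eq_zero_iff _ inj_A]
  have hnF : algebraMap ℚ[X] F n ≠ 0 := by
    rw [IsScalarTower.algebraMap_apply ℚ[X] A F, Ne, map_eq_zero_iff _ hinjF]
    exact hnA
  set z : F := algebraMap A F a / algebraMap A F b with hzdef
  set Y : F := algebraMap A F y with hY
  have hYsq : Y ^ 2 = algebraMap ℚ[X] F s := by
    rw [hY, ← map_pow, y_sq, ← IsScalarTower.algebraMap_apply]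
  have hz1 : z = (algebraMap ℚ[X] F p + algebraMap ℚ[X] F q * Y) / algebraMap ℚ[X] F n := by
    rw [eq_div_iff hnF, hzdef, IsScalarTower.algebraMap_apply ℚ[X] A F n, ← hn, map_mul,
      IsScalarTower.algebraMap_apply ℚ[X] A F p, IsScalarTower.algebraMap_apply ℚ[X] A F q, hY,
      ← map_mul, ← map_mul, ← map_add, ← hpq, map_mul, map_mul, div_mul_eq_mul_div, div_eq_iff hbF]
    ring
  have hτY : τ Y = -Y := by
    rw [hY, hτ, σ_y, map_neg]
  have hz2 : τ z = (algebraMap ℚ[X] F p - algebraMap ℚ[X] F q * Y) / algebraMap ℚ[X] F n := by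
    rw [hz1, map_div₀, map_add, map_mul, hτY, AlgHom.commutes, AlgHom.commutes, AlgHom.commutes]
    ring
  have hint2 : IsIntegral ℚ[X] (τ z) := hz'.map τ
  have hsum : IsIntegral ℚ[X] (algebraMap ℚ[X] F (2 * p) / algebraMap ℚ[X] F n) := by
    have e : algebraMap ℚ[X] F (2 * p) / algebraMap ℚ[X] F n = z + τ z := by
      rw [hz2, hz1, map_mul, map_ofNat, ← add_div]
      congr 1
      ring
    rw [e]
    exact hz'.add hint2
  have hd1 : n ∣ p := by
    have h1 := dvd_of_int hdom _ _ hn0 hsum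
    have h2 : IsUnit (2 : ℚ[X]) := by
      rw [← C_ofNat]
      exact isUnit_C.2 (by norm_num)
    exact (h2.dvd_mul_left).1 h1
  have hprod : IsIntegral ℚ[X] (algebraMap ℚ[X] F (p ^ 2 - q ^ 2 * s) / algebraMap ℚ[X] F (n ^ 2)) := by
    have e : algebraMap ℚ[X] F (p ^ 2 - q ^ 2 * s) / algebraMap ℚ[X] F (n ^ 2) = z * τ z := by
      rw [hz2, hz1, map_sub, map_mul, map_pow, map_pow, map_pow, ← hYsq, div_mul_div_comm]
      congr 1
      · ring
      · ring
    rw [e]
    exact hz'.mul hint2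
  have hd2 : n ∣ q := by
    have h1 := dvd_of_int hdom _ _ (pow_ne_zero 2 hn0) hprod
    have h2 : n ^ 2 ∣ p ^ 2 := pow_dvd_pow_of_dvd hd1 2
    have h3 : n ^ 2 ∣ q ^ 2 * s := by
      have := dvd_sub h2 h1
      simpa using this
    exact dvd_of_sq n q hn0 h3
  obtain ⟨p', rfl⟩ := hd1
  obtain ⟨q', rfl⟩ := hd2
  refine ⟨algebraMap ℚ[X] A p' + algebraMap ℚ[X] A q' * y, ?_⟩
  rw [hz1, eq_div_iff hnF, map_add, map_mul, map_mul, map_mul, ← IsScalarTower.algebraMap_apply,
    ← IsScalarTower.algebraMap_apply, ← hY]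
  ring

end

end Pool.Agent.W692.MQ
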